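import Mathlib

/-!
MP_bbc525_pr (helper959): the one variable inequality for the star with 20 leaves.
-/

set_option autoImplicit false

namespace Pool.Agent.H959.US

/-- derivative of the gap function -/
noncomputable def gg (r : ℝ) : ℝ :=
  Real.log r - Real.log (1 - r) - Real.log 19 - (20 / 19) * ((20 * r / 19) ^ 19 - 1)

/-- the gap function -/
noncomputable def ff (r : ℝ) : ℝ :=
  r * Real.log (r / (19 / 20)) + (1 - r) * Real.log ((1 - r) / (1 - 19 / 20)) -
    (1 / 20) * ((20 * r / 19) ^ 20 - 1 - 20 * (20 * r / 19 - 1))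

theorem gg_deriv {r : ℝ} (h0 : 0 < r) (h1 : r < 1) :
    HasDerivAt gg (1 / r + 1 / (1 - r) - (400 / 19) * (20 * r / 19) ^ 18) r := by
  have d1 := Real.hasDerivAt_log h0.ne'
  have d2 : HasDerivAt (fun r : ℝ => Real.log (1 - r)) (-1 / (1 - r)) r :=
    ((hasDerivAt_id r).const_sub 1).log (by simp only [id]; linarith)
  have d3 : HasDerivAt (fun r : ℝ => 20 * r / 19) (20 / 19) r := by
    have := ((hasDerivAt_id r).const_mul 20).div_const 19
    simpa using this
  have d4 := ((d3.pow 19).sub_const 1).const_mul (20 / 19 : ℝ)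
  refine (((d1.sub d2).sub_const (Real.log 19)).sub d4).congr_deriv ?_
  have : 1 - r ≠ 0 := by linarith
  field_simp
  push_cast
  ring

theorem gg_deriv_nonneg {r : ℝ} (h0 : 0 < r) (h1 : r < 1) :
    0 ≤ 1 / r + 1 / (1 - r) - (400 / 19) * (20 * r / 19) ^ 18 := by
  have h2 : 0 < 1 - r := by linarith
  have hx : 0 < 20 * r / 19 := by positivity
  set x := 20 * r / 19 with hxd
  have hr : r = 19 * x / 20 := by rw [hxd]; ring
  have hb : 0 ≤ 1 - 20 * x ^ 19 + 19 * x ^ 20 := by
    have h := one_add_mul_le_pow (show (-2 : ℝ) ≤ 1 / x - 1 by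
      have : 0 < 1 / x := by positivity
      linarith) 20
    have e : (1 + (1 / x - 1)) = 1 / x := by ring
    rw [e] at h
    have h3 := mul_le_mul_of_nonneg_right h (by positivity : 0 ≤ x ^ 20)
    have e2 : (1 / x) ^ 20 * x ^ 20 = 1 := by
      rw [← mul_pow, one_div_mul_cancel hx.ne', one_pow]
    have e3 : (1 + ((20 : ℕ) : ℝ) * (1 / x - 1)) * x ^ 20 = 20 * x ^ 19 - 19 * x ^ 20 := by
      push_cast
      field_simp
      ring
    rw [e2, e3] at h3
    linarith
  have h4 : 1 / r + 1 / (1 - r) = 1 / (r * (1 - r)) := by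
    field_simp
    ring
  rw [h4, sub_nonneg, le_div_iff₀ (mul_pos h0 h2)]
  have e5 : (400 / 19) * x ^ 18 * (r * (1 - r)) = 20 * x ^ 19 - 19 * x ^ 20 := by
    rw [hr]; ring
  rw [e5]
  linarith

theorem gg_q : gg (19 / 20) = 0 := by
  unfold gg
  have h : Real.log (19 / 20) - Real.log (1 - 19 / 20) = Real.log 19 := by
    rw [← Real.log_div (by norm_num) (by norm_num)]
    norm_num
  rw [h]
  norm_num

theorem gg_mono : MonotoneOn gg (Set.Ioo 0 1) := by
  apply monotoneOn_of_deriv_nonneg (convex_Ioo 0 1)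
  · intro r hr
    exact (gg_deriv hr.1 hr.2).continuousAt.continuousWithinAt
  · rw [interior_Ioo]
    intro r hr
    exact (gg_deriv hr.1 hr.2).differentiableAt.differentiableWithinAt
  · rw [interior_Ioo]
    intro r hr
    rw [(gg_deriv hr.1 hr.2).deriv]
    exact gg_deriv_nonneg hr.1 hr.2

theorem ff_deriv {r : ℝ} (h0 : 0 < r) (h1 : r < 1) : HasDerivAt ff (gg r) r := by
  have h2 : 0 < 1 - r := by linarith
  have d1 : HasDerivAt (fun r : ℝ => r * Real.log (r / (19 / 20)))
      (1 * Real.log (r / (19 / 20)) + r * ((1 / (19 / 20)) / (r / (19 / 20)))) r := by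
    refine (hasDerivAt_id r).mul ?_
    exact ((hasDerivAt_id r).div_const (19 / 20)).log (by simp only [id]; positivity)
  have d2 : HasDerivAt (fun r : ℝ => (1 - r) * Real.log ((1 - r) / (1 - 19 / 20)))
      ((-1) * Real.log ((1 - r) / (1 - 19 / 20)) +
        (1 - r) * ((-1 / (1 - 19 / 20)) / ((1 - r) / (1 - 19 / 20)))) r := by
    refine ((hasDerivAt_id r).const_sub 1).mul ?_
    refine (((hasDerivAt_id r).const_sub 1).div_const (1 - 19 / 20)).log ?_
    simp only [id]
    have : (0 : ℝ) < (1 - r) / (1 - 19 / 20) := div_pos h2 (by norm_num)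
    exact this.ne'
  have d3 : HasDerivAt (fun r : ℝ => 20 * r / 19) (20 / 19) r := by
    have := ((hasDerivAt_id r).const_mul 20).div_const 19
    simpa using this
  have d4 := (((d3.pow 20).sub_const 1).sub ((d3.sub_const 1).const_mul (20 : ℝ))).const_mul
    (1 / 20 : ℝ)
  refine ((d1.add d2).sub d4).congr_deriv ?_
  unfold gg
  have e1 : Real.log (r / (19 / 20)) = Real.log r - (Real.log 19 - Real.log 20) := by
    rw [Real.log_div h0.ne' (by norm_num), Real.log_div (by norm_num) (by norm_num)]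
  have e2 : Real.log ((1 - r) / (1 - 19 / 20)) = Real.log (1 - r) + Real.log 20 := by
    rw [Real.log_div h2.ne' (by norm_num)]
    have : (1 - 19 / 20 : ℝ) = 20⁻¹ := by norm_num
    rw [this, Real.log_inv]
    ring
  have e3 : r * ((1 / (19 / 20)) / (r / (19 / 20))) = 1 := by
    field_simp
  have e4 : (1 - r) * ((-1 / (1 - 19 / 20)) / ((1 - r) / (1 - 19 / 20))) = -1 := by
    field_simp
  rw [e1, e2, e3, e4]
  push_cast
  ring

theorem ff_cont : Continuous ff := by
  unfold ff
  have h1 : Continuous (fun r : ℝ => r * Real.log (r / (19 / 20))) := by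
    have h := (Real.continuous_mul_log.comp
      (continuous_id.div_const (19 / 20 : ℝ))).mul (continuous_const (y := (19 / 20 : ℝ)))
    refine h.congr (fun r => ?_)
    show (r / (19 / 20)) * Real.log (r / (19 / 20)) * (19 / 20) = r * Real.log (r / (19 / 20))
    ring
  have h2 : Continuous (fun r : ℝ => (1 - r) * Real.log ((1 - r) / (1 - 19 / 20))) := by
    have h := (Real.continuous_mul_log.comp
      ((continuous_const (y := (1 : ℝ)).sub continuous_id).div_const
        (1 - 19 / 20 : ℝ))).mul (continuous_const (y := (1 - 19 / 20 : ℝ)))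
    refine h.congr (fun r => ?_)
    show ((1 - r) / (1 - 19 / 20)) * Real.log ((1 - r) / (1 - 19 / 20)) * (1 - 19 / 20) =
      (1 - r) * Real.log ((1 - r) / (1 - 19 / 20))
    ring
  exact (h1.add h2).sub (by fun_prop)

theorem ff_q : ff (19 / 20) = 0 := by
  have e1 : (19 / 20 : ℝ) / (19 / 20) = 1 := by norm_num
  have e2 : (1 - 19 / 20 : ℝ) / (1 - 19 / 20) = 1 := by norm_num
  have e3 : (20 * (19 / 20) / 19 : ℝ) = 1 := by norm_num
  unfold ff
  rw [e1, e2, e3, Real.log_one]
  norm_num

theorem ff_nonneg {r : ℝ} (h0 : 0 ≤ r) (h1 : r ≤ 1) : 0 ≤ ff r := by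
  have hq : (19 / 20 : ℝ) ∈ Set.Ioo (0 : ℝ) 1 := by constructor <;> norm_num
  rcases le_total r (19 / 20) with h | h
  · have ha : AntitoneOn ff (Set.Icc 0 (19 / 20)) := by
      apply antitoneOn_of_deriv_nonpos (convex_Icc 0 (19 / 20)) ff_cont.continuousOn
      · rw [interior_Icc]
        intro t ht
        exact (ff_deriv ht.1 (by linarith [ht.2])).differentiableAt.differentiableWithinAt
      · rw [interior_Icc]
        intro t ht
        have ht1 : t < 1 := by linarith [ht.2]
        rw [(ff_deriv ht.1 ht1).deriv, ← gg_q]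
        exact gg_mono ⟨ht.1, ht1⟩ hq ht.2.le
    have := ha ⟨h0, h⟩ ⟨by norm_num, le_rfl⟩ h
    rw [ff_q] at this
    exact this
  · have ha : MonotoneOn ff (Set.Icc (19 / 20) 1) := by
      apply monotoneOn_of_deriv_nonneg (convex_Icc (19 / 20) 1) ff_cont.continuousOn
      · rw [interior_Icc]
        intro t ht
        exact (ff_deriv (by linarith [ht.1]) ht.2).differentiableAt.differentiableWithinAt
      · rw [interior_Icc]
        intro t ht
        have ht0 : 0 < t := by linarith [ht.1]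
        rw [(ff_deriv ht0 ht.2).deriv, ← gg_q]
        exact gg_mono hq ⟨ht0, ht.2⟩ ht.1.le
    have := ha ⟨le_rfl, by norm_num⟩ ⟨h, h1⟩ h
    rw [ff_q] at this
    exact this

theorem hub20 (r : ℝ) (h0 : 0 ≤ r) (h1 : r ≤ 1) :
    (1 / 20 : ℝ) * ((20 * r / 19) ^ 20 - 1 - 20 * (20 * r / 19 - 1)) ≤
      r * Real.log (r / (19 / 20)) + (1 - r) * Real.log ((1 - r) / (1 - 19 / 20)) := by
  have h := ff_nonneg h0 h1
  unfold ff at h
  linarith

end Pool.Agent.H959.US
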