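import Mathlib

/-!
MP_bbc525_pr (helper959): numbers for the star with 20 leaves.
-/

set_option autoImplicit false

namespace Pool.Agent.H959.US

theorem log_le_of_quad {x y : ℝ} (hx : 0 < x) (hy : 0 ≤ y) (h : x ≤ 1 + y + y ^ 2 / 2) :
    Real.log x ≤ y := by
  have h1 := Real.quadratic_le_exp_of_nonneg hy
  have h2 := Real.log_le_log hx (h.trans h1)
  rwa [Real.log_exp] at h2

theorem l1 : Real.log ((999 / 1000) / (19 / 20)) ≤ 5032 / 100000 :=
  log_le_of_quad (by norm_num) (by norm_num) (by norm_num)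

theorem l3 : Real.log ((981 / 1000) / (19 / 20)) ≤ 3212 / 100000 :=
  log_le_of_quad (by norm_num) (by norm_num) (by norm_num)

theorem l2 : Real.log ((1 - 999 / 1000) / (1 - 19 / 20)) ≤ -(387 / 100) := by
  have h1 : Real.log ((1 - 999 / 1000) / (1 - 19 / 20)) =
      -(6 * Real.log 2 + Real.log (50 / 64)) := by
    rw [← Real.log_rpow two_pos, ← Real.log_mul (by positivity) (by norm_num), ← Real.log_inv]
    norm_num
  have h2 := Real.log_two_gt_d9
  have h3 := Real.one_sub_inv_le_log_of_pos (show (0 : ℝ) < 50 / 64 by norm_num)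
  rw [h1]
  norm_num at h3 ⊢
  linarith

theorem l4 : Real.log ((1 - 981 / 1000) / (1 - 19 / 20)) ≤ -(9658 / 10000) := by
  have h1 : Real.log ((1 - 981 / 1000) / (1 - 19 / 20)) =
      -(Real.log 2 + Real.log (1 + 6 / 19)) := by
    rw [← Real.log_mul (by norm_num) (by norm_num), ← Real.log_inv]
    norm_num
  have h2 := Real.log_two_gt_d9
  have h3 := Real.le_log_one_add_of_nonneg (show (0 : ℝ) ≤ 6 / 19 by norm_num)
  rw [h1]
  norm_num at h3 ⊢
  linarith

theorem l5 : Real.log ((807 / 1000) / (19 / 20)) ≤ -(16277 / 100000) := by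
  have h1 : Real.log ((807 / 1000) / (19 / 20)) = -Real.log (1 + 143 / 807) := by
    rw [← Real.log_inv]
    norm_num
  have h3 := Real.le_log_one_add_of_nonneg (show (0 : ℝ) ≤ 143 / 807 by norm_num)
  rw [h1]
  norm_num at h3 ⊢
  linarith

theorem l6 : Real.log ((1 - 807 / 1000) / (1 - 19 / 20)) ≤ 1351296 / 1000000 := by
  have h1 : Real.log ((1 - 807 / 1000) / (1 - 19 / 20)) =
      2 * Real.log 2 + Real.log (965 / 1000) := by
    rw [← Real.log_rpow two_pos, ← Real.log_mul (by positivity) (by norm_num)]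
    norm_num
  have h2 := Real.log_two_lt_d9
  have h3 := Real.log_le_sub_one_of_pos (show (0 : ℝ) < 965 / 1000 by norm_num)
  rw [h1]
  norm_num at h3 ⊢
  linarith

theorem num2 :
    (4 / 25 : ℝ) * ((999 / 1000) * Real.log ((999 / 1000) / (19 / 20)) +
      (1 - 999 / 1000) * Real.log ((1 - 999 / 1000) / (1 - 19 / 20))) +
    (12 / 25) * ((981 / 1000) * Real.log ((981 / 1000) / (19 / 20)) +
      (1 - 981 / 1000) * Real.log ((1 - 981 / 1000) / (1 - 19 / 20))) +
    (9 / 25) * ((807 / 1000) * Real.log ((807 / 1000) / (19 / 20)) +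
      (1 - 807 / 1000) * Real.log ((1 - 807 / 1000) / (1 - 19 / 20))) <
    (21 / 10) * (19 / 20 - 92124 / 100000) := by
  linarith [l1, l2, l3, l4, l5, l6]

end Pool.Agent.H959.US
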