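import Mathlib
import Pool.Agent.H959.UT.MaxTwo

/-!
MP_bbc525_pr (helper959): the star with 20 leaves.
-/

set_option autoImplicit false

namespace Pool.Agent.H959.US

open MeasureTheory
open Pool.Agent.H767R5.UT Pool.Agent.H959.UT

/-- The star with centre `0` and 20 leaves. -/
def star20 : SimpleGraph (Fin 21) where
  Adj i j := i ≠ j ∧ (i = 0 ∨ j = 0)
  symm := ⟨fun _ _ h => ⟨h.1.symm, h.2.symm⟩⟩
  loopless := ⟨fun _ h => h.1 rfl⟩

/-- the edges -/
def edg (i : Fin 20) : Sym2 (Fin 21) := s(0, i.succ)

theorem edg_inj : Function.Injective edg := by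
  intro i j h
  unfold edg at h
  rw [Sym2.eq_iff] at h
  rcases h with h | h
  · exact Fin.succ_injective _ h.2
  · exact absurd h.1.symm (Fin.succ_ne_zero j)

theorem edgeSet_eq : star20.edgeSet = Set.range edg := by
  ext e
  induction e with
  | h a b =>
    rw [SimpleGraph.mem_edgeSet]
    constructor
    · rintro ⟨hne, h | h⟩
      · subst h
        obtain ⟨i, hi⟩ := Fin.exists_succ_eq.mpr (Ne.symm hne)
        exact ⟨i, by unfold edg; rw [hi]⟩
      · subst h
        obtain ⟨i, hi⟩ := Fin.exists_succ_eq.mpr hne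
        exact ⟨i, by unfold edg; rw [hi, Sym2.eq_swap]⟩
    · rintro ⟨i, hi⟩
      unfold edg at hi
      rw [Sym2.eq_iff] at hi
      rcases hi with h | h
      · refine ⟨?_, Or.inl h.1.symm⟩
        rw [← h.1, ← h.2]; exact (Fin.succ_ne_zero i).symm
      · refine ⟨?_, Or.inr h.1.symm⟩
        rw [← h.1, ← h.2]; exact Fin.succ_ne_zero i

theorem star20_edges : star20.edgeSet.ncard = 20 := by
  rw [edgeSet_eq, Set.ncard_range_of_injective edg_inj]
  simp

theorem star20_deg_zero : (star20.neighborSet 0).ncard = 20 := by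
  have h : star20.neighborSet 0 = Set.range (Fin.succ : Fin 20 → Fin 21) := by
    ext j
    rw [SimpleGraph.mem_neighborSet]
    constructor
    · rintro ⟨hne, _⟩
      exact Fin.exists_succ_eq.mpr (Ne.symm hne)
    · rintro ⟨i, hi⟩
      exact ⟨by rw [← hi]; exact (Fin.succ_ne_zero i).symm, Or.inl rfl⟩
  rw [h, Set.ncard_range_of_injective (Fin.succ_injective _)]
  simp

theorem star20_deg_succ (i : Fin 20) : (star20.neighborSet i.succ).ncard = 1 := by
  have h : star20.neighborSet i.succ = {0} := by
    ext j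
    rw [SimpleGraph.mem_neighborSet, Set.mem_singleton_iff]
    constructor
    · rintro ⟨_, h | h⟩
      · exact absurd h (Fin.succ_ne_zero i)
      · exact h
    · rintro rfl
      exact ⟨Fin.succ_ne_zero i, Or.inr rfl⟩
  rw [h, Set.ncard_singleton]

theorem star20_density (W : Graphon) : homDensity star20 W = ∫ x, W.deg x ^ 20 := by
  have h1 : ∀ x : Fin 21 → unitInterval,
      ∏ e ∈ (Set.toFinite star20.edgeSet).toFinset, W.edgeVal x e =
        ∏ i : Fin 20, W.toFun (x 0) (x i.succ) := by
    intro x
    have h2 : (Set.toFinite star20.edgeSet).toFinset = Finset.univ.image edg := by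
      ext e
      rw [Set.Finite.mem_toFinset, edgeSet_eq]
      simp
    rw [h2, Finset.prod_image (fun i _ j _ h => edg_inj h)]
    rfl
  unfold homDensity
  simp only [h1]
  have hmp := volume_preserving_piFinSuccAbove (fun _ : Fin 21 => unitInterval) 0
  have h3 := hmp.integral_comp' (g := fun z : unitInterval × (Fin 20 → unitInterval) =>
    ∏ i : Fin 20, W.toFun z.1 (z.2 i))
  have h4 : ∫ x : Fin 21 → unitInterval, ∏ i : Fin 20, W.toFun (x 0) (x i.succ) =
      ∫ z : unitInterval × (Fin 20 → unitInterval), ∏ i : Fin 20, W.toFun z.1 (z.2 i) := by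
    rw [← h3]
    rfl
  rw [h4]
  have hm : Measurable (fun z : unitInterval × (Fin 20 → unitInterval) =>
      ∏ i : Fin 20, W.toFun z.1 (z.2 i)) := by
    apply Finset.measurable_prod
    intro i _
    have h5 : Measurable (fun z : unitInterval × (Fin 20 → unitInterval) => (z.1, z.2 i)) := by
      fun_prop
    exact W.measurable.comp h5
  have hi : Integrable (fun z : unitInterval × (Fin 20 → unitInterval) =>
      ∏ i : Fin 20, W.toFun z.1 (z.2 i)) volume := by
    refine bdd_int _ hm 1 (fun z => ?_)
    rw [abs_of_nonneg (Finset.prod_nonneg (fun i _ => W.nonneg _ _))]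
    exact Finset.prod_le_one (fun i _ => W.nonneg _ _) (fun i _ => W.le_one _ _)
  rw [Measure.volume_eq_prod] at hi ⊢
  rw [integral_prod _ hi]
  congr 1
  funext x
  have h6 := integral_fintype_prod_volume_eq_pow (𝕜 := ℝ) (ι := Fin 20)
    (E := unitInterval) (fun y => W.toFun x y)
  rw [Fintype.card_fin] at h6
  exact h6

end Pool.Agent.H959.US
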