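import Mathlib
import Pool.Agent.H959.UT.Nec

/-!
MP_bbc525_pr (helper959): graphons with two types.
-/

set_option autoImplicit false
set_option linter.unusedSectionVars false

namespace Pool.Agent.H959.US

open MeasureTheory
open Pool.Agent.H767R5.UT Pool.Agent.H959.UT

/-- The graphon with the types `x ≤ e` and `x > e` and the values `a`, `b`, `c`. -/
noncomputable def two (e : unitInterval) (a b c : ℝ) (ha : 0 ≤ a ∧ a ≤ 1) (hb : 0 ≤ b ∧ b ≤ 1)
    (hc : 0 ≤ c ∧ c ≤ 1) : Graphon where
  toFun := fun x y => if x ≤ e then (if y ≤ e then a else b) else (if y ≤ e then b else c)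
  measurable := by
    have h1 : MeasurableSet {z : unitInterval × unitInterval | z.1 ≤ e} :=
      measurable_fst measurableSet_Iic
    have h2 : MeasurableSet {z : unitInterval × unitInterval | z.2 ≤ e} :=
      measurable_snd measurableSet_Iic
    exact Measurable.ite h1 (Measurable.ite h2 measurable_const measurable_const)
      (Measurable.ite h2 measurable_const measurable_const)
  symm := fun x y => by split_ifs <;> rfl
  nonneg := fun x y => by
    split_ifs
    · exact ha.1
    · exact hb.1
    · exact hb.1
    · exact hc.1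
  le_one := fun x y => by
    split_ifs
    · exact ha.2
    · exact hb.2
    · exact hb.2
    · exact hc.2

theorem two_deg (e : unitInterval) (a b c : ℝ) (ha : 0 ≤ a ∧ a ≤ 1) (hb : 0 ≤ b ∧ b ≤ 1)
    (hc : 0 ≤ c ∧ c ≤ 1) (x : unitInterval) : (two e a b c ha hb hc).deg x =
      if x ≤ e then e * a + (1 - e) * b else e * b + (1 - e) * c := by
  unfold Graphon.deg
  by_cases hx : x ≤ e
  · simp only [two, hx, if_true]
    exact integral_step e _ _
  · simp only [two, hx, if_false]
    exact integral_step e _ _

theorem two_pow (e : unitInterval) (a b c : ℝ) (ha : 0 ≤ a ∧ a ≤ 1) (hb : 0 ≤ b ∧ b ≤ 1)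
    (hc : 0 ≤ c ∧ c ≤ 1) (s : ℕ) : ∫ x, (two e a b c ha hb hc).deg x ^ s =
      e * (e * a + (1 - e) * b) ^ s + (1 - e) * (e * b + (1 - e) * c) ^ s := by
  have h : ∀ x : unitInterval, (two e a b c ha hb hc).deg x ^ s =
      if x ≤ e then (e * a + (1 - e) * b) ^ s else (e * b + (1 - e) * c) ^ s := by
    intro x
    rw [two_deg]
    split_ifs <;> rfl
  simp only [h]
  exact integral_step e _ _

theorem two_cost {p : ℝ} (hp0 : 0 < p) (hp1 : p < 1) (e : unitInterval) (a b c : ℝ)
    (ha : 0 ≤ a ∧ a ≤ 1) (hb : 0 ≤ b ∧ b ≤ 1) (hc : 0 ≤ c ∧ c ≤ 1) :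
    cost p (two e a b c ha hb hc) = e * (e * Ip p a + (1 - e) * Ip p b) +
      (1 - e) * (e * Ip p b + (1 - e) * Ip p c) := by
  unfold cost
  have hI := cost_integrable hp0 hp1 (two e a b c ha hb hc)
  rw [Measure.volume_eq_prod] at hI ⊢
  rw [integral_prod _ hI]
  have h1 : ∀ x : unitInterval, ∫ y : unitInterval,
      Ip p ((two e a b c ha hb hc).toFun (x, y).1 (x, y).2) =
      if x ≤ e then e * Ip p a + (1 - e) * Ip p b else e * Ip p b + (1 - e) * Ip p c := by
    intro x
    by_cases hx : x ≤ e
    · simp only [two, hx, if_true]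
      have h2 : ∀ y : unitInterval, Ip p (if y ≤ e then a else b) =
          if y ≤ e then Ip p a else Ip p b := by
        intro y; split_ifs <;> rfl
      simp only [h2]
      exact integral_step e _ _
    · simp only [two, hx, if_false]
      have h2 : ∀ y : unitInterval, Ip p (if y ≤ e then b else c) =
          if y ≤ e then Ip p b else Ip p c := by
        intro y; split_ifs <;> rfl
      simp only [h2]
      exact integral_step e _ _
  simp only [h1]
  exact integral_step e _ _

end Pool.Agent.H959.US
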