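import Mathlib
import Pool.Agent.H959.US.Two
import Pool.Agent.H959.US.Star
import Pool.Agent.H959.US.Num
import Pool.Agent.H959.US.Cal

/-!
MP_bbc525_pr (helper959): the hub inequality is not sufficient for the star with 20 leaves.
-/

set_option autoImplicit false
set_option linter.unusedSectionVars false

namespace Pool.Agent.H959.US

open MeasureTheory
open Pool.Agent.H767R5.UT Pool.Agent.H959.UT

/-- `p = 19 / (19 + exp l)` -/
noncomputable def pOf (l : ℝ) : ℝ := 19 / (19 + Real.exp l)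

theorem pOf_pos (l : ℝ) : 0 < pOf l := by
  unfold pOf
  have := Real.exp_pos l
  positivity

theorem pOf_lt {l : ℝ} (hl : 0 < l) : pOf l < 19 / 20 := by
  unfold pOf
  have h1 := Real.exp_pos l
  have h2 := Real.one_lt_exp_iff.mpr hl
  rw [div_lt_div_iff₀ (by linarith) (by norm_num)]
  linarith

theorem one_sub_pOf (l : ℝ) : 1 - pOf l = Real.exp l / (19 + Real.exp l) := by
  unfold pOf
  have := Real.exp_pos l
  field_simp
  ring

theorem lamOf (l : ℝ) : (Real.log (19 / 20) - Real.log (1 - 19 / 20)) -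
    (Real.log (pOf l) - Real.log (1 - pOf l)) = l := by
  have he := Real.exp_pos l
  have h1 : Real.log (pOf l) - Real.log (1 - pOf l) = Real.log 19 - l := by
    rw [one_sub_pOf]
    unfold pOf
    rw [Real.log_div (by norm_num) (by positivity), Real.log_div he.ne' (by positivity),
      Real.log_exp]
    ring
  have h2 : Real.log (19 / 20) - Real.log (1 - 19 / 20) = Real.log 19 := by
    rw [← Real.log_div (by norm_num) (by norm_num)]
    norm_num
  rw [h1, h2]
  ring

/-- two fifths -/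
noncomputable def e25 : unitInterval := ⟨2 / 5, by norm_num, by norm_num⟩

theorem sb20 {l : ℝ} (hl : 21 / 10 ≤ l) :
    ∃ W : Graphon, Feasible star20 (19 / 20) W ∧ cost (pOf l) W < Ip (pOf l) (19 / 20) := by
  refine ⟨two e25 (999 / 1000) (981 / 1000) (807 / 1000) (by norm_num) (by norm_num)
    (by norm_num), ?_, ?_⟩
  · unfold Feasible
    rw [star20_edges, star20_density, two_pow]
    have h : ((e25 : unitInterval) : ℝ) = 2 / 5 := rfl
    rw [h]
    norm_num
  · have hp0 := pOf_pos l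
    have hp1 : pOf l < 1 := (pOf_lt (by linarith)).trans (by norm_num)
    rw [two_cost hp0 hp1]
    have h : ((e25 : unitInterval) : ℝ) = 2 / 5 := rfl
    have hq0 : (0 : ℝ) < 19 / 20 := by norm_num
    have hq1 : (19 / 20 : ℝ) < 1 := by norm_num
    rw [h, Ip_expand hp0 hp1 hq0 hq1 (999 / 1000), Ip_expand hp0 hp1 hq0 hq1 (981 / 1000),
      Ip_expand hp0 hp1 hq0 hq1 (807 / 1000), lamOf]
    have h2 := num2
    unfold Ip at h2 ⊢
    linarith

theorem UT_lt20 {l : ℝ} (hl : 21 / 10 ≤ l) :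
    UT star20 (pOf l) (19 / 20) < Ip (pOf l) (19 / 20) := by
  obtain ⟨W, hW, hc⟩ := sb20 hl
  exact lt_of_le_of_lt (csInf_le (UT_bdd star20 (pOf_pos l)
    ((pOf_lt (by linarith)).trans (by norm_num))) ⟨W, hW, rfl⟩) hc

theorem bern20 {x : ℝ} (hx : 0 ≤ x) : 0 ≤ x ^ 20 - 1 - 20 * (x - 1) := by
  have h := one_add_mul_le_pow (show (-2 : ℝ) ≤ x - 1 by linarith) 20
  have e : (1 + (x - 1)) = x := by ring
  rw [e] at h
  push_cast at h
  linarith

theorem hub20' {l : ℝ} (hl0 : 0 < l) (hl : l ≤ 40 / 19) (r : ℝ) (h0 : 0 ≤ r) (h1 : r ≤ 1) :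
    (19 / 20 : ℝ) * l / (2 * 20) * ((r / (19 / 20)) ^ 20 - 1 + 20 * (r / (19 / 20) - 1)) ≤
      Ip (pOf l) r - Ip (pOf l) (19 / 20) := by
  have hp0 := pOf_pos l
  have hp1 : pOf l < 1 := (pOf_lt hl0).trans (by norm_num)
  rw [Ip_expand hp0 hp1 (by norm_num : (0 : ℝ) < 19 / 20) (by norm_num) r, lamOf]
  have h := hub20 r h0 h1
  have e : r / (19 / 20) = 20 * r / 19 := by ring
  have hb := bern20 (x := 20 * r / 19) (by positivity)
  have h2 := mul_le_mul_of_nonneg_right
    (show (19 / 20 : ℝ) * l / (2 * 20) ≤ 1 / 20 by linarith) hb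
  unfold Ip
  rw [e] at h ⊢
  nlinarith

theorem star20_sum (x : ℝ) :
    ∑ v : Fin 21, (x ^ (star20.neighborSet v).ncard - 1) = x ^ 20 - 1 + 20 * (x - 1) := by
  rw [Fin.sum_univ_succ, star20_deg_zero]
  congr 1
  rw [Finset.sum_congr rfl (g := fun _ => x - 1) (fun i _ => by rw [star20_deg_succ, pow_one])]
  rw [Finset.sum_const, Finset.card_univ, Fintype.card_fin, nsmul_eq_mul]
  norm_num

end Pool.Agent.H959.US
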